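import Pool.Agent.Work.MP_dd0ddf_al.FD.NonArch2
import Pool.Agent.Work.MP_dd0ddf_al.FN.NonArch

/-!
# MP_dd0ddf_al: the nonarchimedean half of the final statement, all characteristics

Characteristic not 2: with `t = δ - 1/2`, `star t = -t`, the operators `ρ₁(v) = ψ(t ⟨v, v⟩) ρ(v)`
satisfy `ρ₁(v) ρ₁(w) = ψ(Tr⟨v, w⟩ / 2) ρ₁(v + w)`.
-/

set_option linter.unusedSectionVars false
set_option linter.style.haveILetI false

namespace Pool.Agent.Work.MP_dd0ddf_al.FD

open Matrix Filter Topology
open Pool.Agent.Work.MP_dd0ddf_al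
open Pool.Agent.Work.MP_dd0ddf_al.FN (form UV IsQuad IsIrrSmooth IsHeis IsWeil)

noncomputable section

universe u v w

section Alg

variable {E : Type*} [Field E] [StarRing E] {n : ℕ} (J : Matrix (Fin n) (Fin n) E)

private theorem form_add_left (u v w : Fin n → E) : form J (u + v) w = form J u w + form J v w := by
  unfold form
  rw [← Finset.sum_add_distrib]
  refine Finset.sum_congr rfl fun i _ => ?_
  rw [← Finset.sum_add_distrib]
  refine Finset.sum_congr rfl fun j _ => ?_
  rw [Pi.add_apply]
  ring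

private theorem form_add_right (u v w : Fin n → E) :
    form J u (v + w) = form J u v + form J u w := by
  unfold form
  rw [← Finset.sum_add_distrib]
  refine Finset.sum_congr rfl fun i _ => ?_
  rw [← Finset.sum_add_distrib]
  refine Finset.sum_congr rfl fun j _ => ?_
  rw [Pi.add_apply, star_add]
  ring

private theorem form_skew (hJ : Jᴴ = -J) (v w : Fin n → E) : form J w v = - star (form J v w) := by
  unfold form
  rw [star_sum, ← Finset.sum_neg_distrib, Finset.sum_comm]
  simp only [star_sum]
  refine Finset.sum_congr rfl fun i _ => ?_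
  rw [← Finset.sum_neg_distrib]
  refine Finset.sum_congr rfl fun j _ => ?_
  have h1 : star (J i j) = - J j i := by
    have := congrFun (congrFun hJ j) i
    rw [conjTranspose_apply, neg_apply] at this
    exact this
  rw [star_mul', star_mul', star_star, h1]
  ring

private theorem form_zero (u : Fin n → E) : form J 0 u = 0 := by
  unfold form
  refine Finset.sum_eq_zero fun i _ => Finset.sum_eq_zero fun j _ => ?_
  rw [Pi.zero_apply, zero_mul, zero_mul]

end Alg

section Main

variable {F E : Type u} [NontriviallyNormedField F] [IsUltrametricDist F] [ProperSpace F]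
  [NontriviallyNormedField E] [NormedAlgebra F E] [ProperSpace E] [StarRing E] {n : ℕ}

private theorem trace_q (h2 : ringChar F ≠ 2) (hq : IsQuad F E) (x : E) :
    algebraMap F E (Algebra.trace F E x) = x + star x := by
  haveI : NeZero (2 : F) := ⟨Ring.two_ne_zero h2⟩
  haveI : OC.QExt F E := ⟨hq.fixes, hq.degree, hq.nontrivial⟩
  haveI : FiniteDimensional F E := OC.qext_findim F E
  have hst : Algebra.trace F E (star x) = Algebra.trace F E x :=
    Algebra.trace_eq_of_algEquiv
      ({ toFun := star
         invFun := star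
         left_inv := star_star
         right_inv := star_star
         map_mul' := fun x y => by rw [star_mul']
         map_add' := fun x y => star_add x y
         commutes' := fun a => hq.fixes a } : E ≃ₐ[F] E) x
  obtain ⟨-, -, -, -, -, hfix⟩ := OC.exists_eta F E
  obtain ⟨c, hc⟩ := hfix (x + star x) (by rw [star_add, star_star, add_comm])
  have h1 : Algebra.trace F E (x + star x) = 2 * c := by
    rw [hc, Algebra.trace_algebraMap, hq.degree, nsmul_eq_mul, Nat.cast_ofNat]
  rw [map_add, hst, ← two_mul] at h1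
  have h3 := mul_left_cancel₀ (two_ne_zero (α := F)) h1
  rw [h3, hc]

/-- **multiplicity one**, nonarchimedean case -/
theorem nonarch (hq : IsQuad F E) (ψ : AddChar F Circle)
    (hψ : Continuous ψ) (hne : ψ ≠ 1) (hn : 3 ≤ n) (J : Matrix (Fin n) (Fin n) E) (hJ : Jᴴ = -J)
    (hdet : J.det ≠ 0) (δ : E) (hδ : δ + star δ = 1) {S : Type v} [AddCommGroup S] [Module ℂ S]
    (ρ : (Fin n → E) → Module.End ℂ S) (hρ : IsHeis J δ (fun x => (ψ x : ℂ)) ρ)
    (ω : GL (Fin n) E → Module.End ℂ S) (hω : IsWeil J ρ ω) {P : Type w} [AddCommGroup P]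
    [Module ℂ P] (π : GL (Fin n) E →* Module.End ℂ P) (hπ : IsIrrSmooth π) :
    ∃ l₀ : P →ₗ[ℂ] S, ∀ l : P →ₗ[ℂ] S, (∀ h ∈ UV J, ∀ x, l (π h x) = ω h (l x)) →
      ∃ c : ℂ, ∀ x, l x = c • l₀ x := by
  by_cases h2 : ringChar F = 2
  · exact nonarch2 h2 hq δ hδ ψ hψ hne hn J hJ hdet ρ hρ ω hω π hπ
  haveI : NeZero (2 : F) := ⟨Ring.two_ne_zero h2⟩
  have h20 : (2 : F) ≠ 0 := Ring.two_ne_zero h2
  haveI : OC.QExt F E := ⟨hq.fixes, hq.degree, hq.nontrivial⟩
  haveI : FiniteDimensional F E := OC.qext_findim F E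
  have hE2 : (2 : E) ≠ 0 := by
    have h3 : (2 : E) = algebraMap F E 2 := by rw [map_ofNat]
    rw [h3, Ne, map_eq_zero]
    exact h20
  set t : E := δ - 1 / 2 with ht
  have hs2 : star (1 / 2 : E) = 1 / 2 := by
    have h3 : (1 / 2 : E) = algebraMap F E (1 / 2) := by
      rw [map_div₀, map_one, map_ofNat]
    rw [h3, hq.fixes]
  have hst : star t = -t := by
    rw [ht, star_sub, hs2]
    have h3 : star δ = 1 - δ := by linear_combination hδ
    rw [h3]
    field_simp
    ring
  let q : (Fin n → E) → F := fun v => Algebra.trace F E (t * form J v v) / 2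
  have hqv : ∀ v, algebraMap F E (q v) = t * form J v v := by
    intro v
    have h3 : star (t * form J v v) = t * form J v v := by
      have h4 := form_skew J hJ v v
      rw [star_mul', hst]
      linear_combination (-t) * h4
    show algebraMap F E (Algebra.trace F E (t * form J v v) / 2) = _
    rw [map_div₀, trace_q h2 hq, h3, map_ofNat]
    field_simp
    ring
  have hadd : ∀ v w, q (v + w) = q v + q w + Algebra.trace F E (t * form J v w) := by
    intro v w
    apply (algebraMap F E).injective
    have h4 := form_skew J hJ v w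
    rw [map_add, map_add, hqv, hqv, hqv, trace_q h2 hq, star_mul', hst, form_add_left,
      form_add_right, form_add_right]
    linear_combination t * h4
  have hqU : ∀ h ∈ UV J, ∀ v, q (h.1 *ᵥ v) = q v := by
    intro h hh v
    show Algebra.trace F E (t * form J (h.1 *ᵥ v) (h.1 *ᵥ v)) / 2 = _
    rw [hh v v]
  have hq0 : q 0 = 0 := by
    show Algebra.trace F E (t * form J 0 0) / 2 = 0
    rw [form_zero, mul_zero, map_zero, zero_div]
  have hqc : Continuous q := by
    have h3 : Continuous (Algebra.trace F E) := LinearMap.continuous_of_finiteDimensional _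
    have h4 : Continuous (fun x : E => star x) := by
      let s : E →ₗ[F] E :=
        { toFun := fun x => star x
          map_add' := fun x y => star_add x y
          map_smul' := fun a x => by
            rw [Algebra.smul_def, star_mul', hq.fixes, RingHom.id_apply, Algebra.smul_def] }
      exact s.continuous_of_finiteDimensional
    have h5 : Continuous (fun v : Fin n → E => form J v v) := by
      unfold form
      refine continuous_finsetSum _ fun i _ => continuous_finsetSum _ fun j _ => ?_
      exact ((continuous_apply i).mul continuous_const).mul (h4.comp (continuous_apply j))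
    exact (h3.comp (continuous_const.mul h5)).div_const 2
  have hψn : ∀ x, (ψ x : ℂ) ≠ 0 := fun x => Circle.coe_ne_zero _
  let ρ₁ : (Fin n → E) → Module.End ℂ S := fun v => (ψ (q v) : ℂ) • ρ v
  have hρ₁ : FN.IsHeisHalf J (fun x => (ψ x : ℂ)) ρ₁ := by
    refine ⟨fun s => ?_, fun v w s => ?_, fun s => ?_, hρ.nonzero, fun N hN => ?_⟩
    · show (ψ (q 0) : ℂ) • ρ 0 s = s
      rw [hq0, AddChar.map_zero_eq_one, Circle.coe_one, one_smul, hρ.zero]
    · show (ψ (q v) : ℂ) • ρ v ((ψ (q w) : ℂ) • ρ w s) =
        (ψ (Algebra.trace F E (form J v w) / 2) : ℂ) • ((ψ (q (v + w)) : ℂ) • ρ (v + w) s)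
      rw [map_smul, hρ.add, smul_smul, smul_smul, smul_smul]
      congr 1
      have h3 : δ * form J v w = algebraMap F E (1 / 2) * form J v w + t * form J v w := by
        rw [ht, map_div₀, map_one, map_ofNat]
        ring
      have h4 : q v + q w + Algebra.trace F E (δ * form J v w) =
          Algebra.trace F E (form J v w) / 2 + q (v + w) := by
        rw [hadd, h3, map_add, ← Algebra.smul_def, map_smul, smul_eq_mul]
        ring
      rw [← Circle.coe_mul, ← Circle.coe_mul, ← Circle.coe_mul, ← AddChar.map_add_eq_mul,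
        ← AddChar.map_add_eq_mul, ← AddChar.map_add_eq_mul, h4]
    · obtain ⟨U, hU, h0, hs⟩ := hρ.smooth s
      have hlc := char_lc ψ hψ
      refine ⟨U ∩ q ⁻¹' {x | (ψ x : ℂ) = 1}, hU.inter ((hlc.isOpen_fiber 1).preimage hqc),
        ⟨h0, ?_⟩, fun v hv => ?_⟩
      · show (ψ (q 0) : ℂ) = 1
        rw [hq0, AddChar.map_zero_eq_one, Circle.coe_one]
      · show (ψ (q v) : ℂ) • ρ v s = s
        rw [show (ψ (q v) : ℂ) = 1 from hv.2, one_smul, hs v hv.1]
    · refine hρ.irreducible N fun v s hs => ?_
      have h3 := N.smul_mem (ψ (q v) : ℂ)⁻¹ (hN v s hs)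
      have h4 : (ψ (q v) : ℂ)⁻¹ • (ρ₁ v s) = ρ v s := by
        show (ψ (q v) : ℂ)⁻¹ • ((ψ (q v) : ℂ) • ρ v s) = ρ v s
        rw [smul_smul, inv_mul_cancel₀ (hψn _), one_smul]
      rwa [h4] at h3
  have hω₁ : IsWeil J ρ₁ ω := by
    refine ⟨hω.one, hω.mul, hω.smooth, fun h hh v s => ?_⟩
    show ω h ((ψ (q v) : ℂ) • ρ v s) = (ψ (q (h.1 *ᵥ v)) : ℂ) • ρ (h.1 *ᵥ v) (ω h s)
    rw [map_smul, hω.intertwines h hh, hqU h hh]
  exact FN.nonarch h2 hq ψ hψ hne hn J hJ hdet ρ₁ hρ₁ ω hω₁ π hπ

end Main

end

end Pool.Agent.Work.MP_dd0ddf_al.FD
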