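import Pool.Agent.Work.MP_dd0ddf_al.FN.Defs
import Pool.Agent.Work.MP_dd0ddf_al.C2.MultOne
import Pool.Agent.Work.MP_dd0ddf_al.C2.AdMain

/-!
# MP_dd0ddf_al: the nonarchimedean half of the final statement, characteristic 2
-/

set_option linter.unusedSectionVars false
set_option linter.style.haveILetI false

namespace Pool.Agent.Work.MP_dd0ddf_al.FD

open Matrix Filter Topology
open Pool.Agent.Work.MP_dd0ddf_al
open Pool.Agent.Work.MP_dd0ddf_al.FN (form UV IsQuad IsIrrSmooth IsHeis IsWeil)

noncomputable section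

universe u v w

/-! ## characters -/

/-- no small subgroups in the circle -/
private theorem circle_one (z : Circle) (h : ∀ k : ℕ, ‖((z ^ k : Circle) : ℂ) - 1‖ < 1) :
    z = 1 := by
  by_contra hne
  have hpos : 0 < ‖(z : ℂ) - 1‖ := by
    rw [norm_pos_iff, sub_ne_zero]
    intro h1
    exact hne (Circle.ext h1)
  have hz : ∀ w : Circle, ‖(w : ℂ) - 1‖ < 1 → 1.5 * ‖(w : ℂ) - 1‖ ≤ ‖(w : ℂ) ^ 2 - 1‖ := by
    intro w hw
    have hw1 : ‖(w : ℂ)‖ = 1 := Circle.norm_coe w
    have e : (w : ℂ) ^ 2 - 1 = ((w : ℂ) - 1) * ((w : ℂ) + 1) := by ring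
    rw [e, norm_mul, mul_comm]
    refine mul_le_mul_of_nonneg_left ?_ (norm_nonneg _)
    have h2 : ‖(w : ℂ) + 1‖ ^ 2 + ‖(w : ℂ) - 1‖ ^ 2 = 2 * (‖(w : ℂ)‖ ^ 2 + ‖(1 : ℂ)‖ ^ 2) := by
      have := parallelogram_law_with_norm ℝ (w : ℂ) 1
      nlinarith [this]
    rw [hw1, norm_one] at h2
    have h3 : ‖(w : ℂ) - 1‖ ^ 2 ≤ 1 := by
      nlinarith [norm_nonneg ((w : ℂ) - 1)]
    have h4 : 3 ≤ ‖(w : ℂ) + 1‖ ^ 2 := by linarith
    nlinarith [norm_nonneg ((w : ℂ) + 1)]
  have hk : ∀ k : ℕ, 1.5 ^ k * ‖(z : ℂ) - 1‖ ≤ ‖((z ^ (2 ^ k) : Circle) : ℂ) - 1‖ := by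
    intro k
    induction k with
    | zero => simp
    | succ k ih =>
      have h1 := hz (z ^ 2 ^ k) (h _)
      have h2 : ((z ^ 2 ^ (k + 1) : Circle) : ℂ) = ((z ^ 2 ^ k : Circle) : ℂ) ^ 2 := by
        push_cast
        ring
      rw [h2]
      refine le_trans ?_ h1
      rw [pow_succ]
      have : (1.5 : ℝ) ^ k * 1.5 * ‖(z : ℂ) - 1‖ = 1.5 * (1.5 ^ k * ‖(z : ℂ) - 1‖) := by ring
      rw [this]
      exact mul_le_mul_of_nonneg_left ih (by norm_num)
  obtain ⟨k, hk'⟩ := pow_unbounded_of_one_lt (‖(z : ℂ) - 1‖⁻¹) (by norm_num : (1 : ℝ) < 1.5)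
  have h1 := (hk k).trans_lt (h _)
  have h2 : 1 < 1.5 ^ k * ‖(z : ℂ) - 1‖ := by
    rwa [inv_lt_iff_one_lt_mul₀ hpos] at hk'
  linarith

/-- a continuous unitary character of an ultrametric field is locally constant -/
theorem char_lc {F : Type*} [NontriviallyNormedField F] [IsUltrametricDist F]
    (ψ : AddChar F Circle) (hψ : Continuous ψ) : IsLocallyConstant fun x => (ψ x : ℂ) := by
  have h0 : ∀ᶠ x in 𝓝 (0 : F), ‖(ψ x : ℂ) - 1‖ < 1 := by
    have hc : Continuous fun x : F => ‖(ψ x : ℂ) - 1‖ :=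
      ((continuous_induced_dom.comp hψ).sub continuous_const).norm
    have h1 : ‖(ψ 0 : ℂ) - 1‖ < 1 := by simp
    exact hc.continuousAt.eventually (gt_mem_nhds h1)
  obtain ⟨r, hr, hball⟩ := Metric.eventually_nhds_iff_ball.1 h0
  have h1 : ∀ x ∈ Metric.ball (0 : F) r, ψ x = 1 := by
    intro x hx
    have h2 : ∀ k : ℕ, ψ x ^ k = ψ (k • x) := by
      intro k
      induction k with
      | zero => simp
      | succ k ih => rw [pow_succ, ih, succ_nsmul, AddChar.map_add_eq_mul]
    have h3 : ∀ k : ℕ, ‖k • x‖ ≤ ‖x‖ := by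
      intro k
      induction k with
      | zero => simp
      | succ k ih =>
        rw [succ_nsmul]
        exact (IsUltrametricDist.norm_add_le_max _ _).trans (max_le ih le_rfl)
    apply circle_one
    intro k
    rw [h2]
    apply hball
    rw [mem_ball_zero_iff] at hx ⊢
    exact (h3 k).trans_lt hx
  rw [IsLocallyConstant.iff_exists_open]
  intro x
  refine ⟨Metric.ball x r, Metric.isOpen_ball, Metric.mem_ball_self hr, fun y hy => ?_⟩
  have h2 : ψ y = ψ (y - x) * ψ x := by rw [← AddChar.map_add_eq_mul, sub_add_cancel]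
  have h3 : ψ (y - x) = 1 := by
    apply h1
    rw [mem_ball_zero_iff]
    rwa [Metric.mem_ball, dist_eq_norm] at hy
  show (ψ y : ℂ) = ψ x
  rw [h2, h3, one_mul]

/-- the character in the form used in the folder `C2` -/
private def pch {F : Type*} [NontriviallyNormedField F] [IsUltrametricDist F]
    (ψ : AddChar F Circle) (hψ : Continuous ψ) (hne : ψ ≠ 1) : C2.PChar F where
  ψ x := (ψ x : ℂ)
  add x y := by rw [AddChar.map_add_eq_mul, Circle.coe_mul]
  norm_one x := Circle.norm_coe _
  lc := char_lc ψ hψ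
  nontriv := by
    by_contra h
    push Not at h
    apply hne
    ext x
    rw [h x]
    simp

/-! ## the form -/

private theorem form_eq {E : Type*} [Field E] [StarRing E] {n : ℕ}
    (J : Matrix (Fin n) (Fin n) E) (v w : Fin n → E) : form J v w = v ⬝ᵥ (J *ᵥ star w) := by
  unfold form dotProduct mulVec dotProduct
  refine Finset.sum_congr rfl fun i _ => ?_
  rw [Finset.mul_sum]
  refine Finset.sum_congr rfl fun j _ => ?_
  rw [mul_assoc]
  rfl

/-- the skew-Hermitian space in the form used in the folder `C2` -/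
private def skb {E : Type*} [Field E] [StarRing E] {n : ℕ}
    (J : Matrix (Fin n) (Fin n) E) (hJ : Jᴴ = -J) (hdet : J.det ≠ 0) : C2.SkewH E (Fin n → E) where
  ip := form J
  add_left u v w := by rw [form_eq, form_eq, form_eq, add_dotProduct]
  smul_left a v w := by rw [form_eq, form_eq, smul_dotProduct, smul_eq_mul]
  skew v w := by
    unfold form
    rw [star_sum, ← Finset.sum_neg_distrib, Finset.sum_comm]
    simp only [star_sum]
    refine Finset.sum_congr rfl fun i _ => ?_
    rw [← Finset.sum_neg_distrib]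
    refine Finset.sum_congr rfl fun j _ => ?_
    have h1 : star (J i j) = - J j i := by
      have := congrFun (congrFun hJ j) i
      rw [conjTranspose_apply, neg_apply] at this
      exact this
    rw [star_mul', star_mul', star_star, h1]
    ring
  nondeg v h := by
    have h1 : ∀ y : Fin n → E, v ⬝ᵥ (J *ᵥ y) = 0 := by
      intro y
      have := h (star y)
      rwa [form_eq, star_star] at this
    have h2 : v ᵥ* J = 0 := by
      apply dotProduct_eq_zero
      intro y
      rw [← dotProduct_mulVec]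
      exact h1 y
    by_contra hv
    exact hdet (exists_vecMul_eq_zero_iff.1 ⟨v, hv, h2⟩)

/-! ## the groups -/

section Groups

variable {E : Type*} [NontriviallyNormedField E] {n : ℕ}

/-- `GL_n(E) ≃ GL(E^n)` -/
private def eG (E : Type*) [NontriviallyNormedField E] (n : ℕ) :
    GL (Fin n) E ≃* C2.GV E (Fin n → E) :=
  Units.mapEquiv (Matrix.toLinAlgEquiv' (R := E) (n := Fin n)).toMulEquiv

private theorem eG_apply (g : GL (Fin n) E) (v : Fin n → E) : (eG E n g).1 v = g.1 *ᵥ v := rfl

private theorem eG_symm_apply (g : C2.GV E (Fin n → E)) (v : Fin n → E) :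
    ((eG E n).symm g).1 *ᵥ v = g.1 v := by
  rw [← eG_apply, MulEquiv.apply_symm_apply]

private theorem eG_symm_cont : Continuous (eG E n).symm := by
  have key : Continuous fun X : Module.End E (Fin n → E) =>
      (Matrix.toLinAlgEquiv' (R := E) (n := Fin n)).symm X := by
    refine continuous_pi fun i => continuous_pi fun j => ?_
    have h1 : (fun X : Module.End E (Fin n → E) =>
        (Matrix.toLinAlgEquiv' (R := E) (n := Fin n)).symm X i j) =
        fun X => X (Pi.single j 1) i := by
      funext X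
      exact LinearMap.toMatrixAlgEquiv'_apply X i j
    rw [h1]
    have h2 : Continuous fun X : Module.End E (Fin n → E) => (X : (Fin n → E) → (Fin n → E)) :=
      continuous_induced_dom
    exact (continuous_apply i).comp ((continuous_apply (Pi.single j (1 : E) : Fin n → E)).comp h2)
  rw [Units.continuous_iff]
  exact ⟨key.comp Units.continuous_val, key.comp Units.continuous_coe_inv⟩

private theorem eG_mem [StarRing E] (J : Matrix (Fin n) (Fin n) E) (hJ : Jᴴ = -J)
    (hdet : J.det ≠ 0) (k : C2.UU (skb J hJ hdet)) : (eG E n).symm k.1 ∈ UV J := fun v w => by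
  rw [eG_symm_apply, eG_symm_apply]
  exact k.2 v w

private theorem eG_mem' [StarRing E] (J : Matrix (Fin n) (Fin n) E) (hJ : Jᴴ = -J)
    (hdet : J.det ≠ 0) {h : GL (Fin n) E} (hh : h ∈ UV J) :
    eG E n h ∈ C2.UU (skb J hJ hdet) := fun v w => hh v w

end Groups

section Main

variable {F E : Type u} [NontriviallyNormedField F] [IsUltrametricDist F] [ProperSpace F]
  [NontriviallyNormedField E] [NormedAlgebra F E] [ProperSpace E] [StarRing E] {n : ℕ}

/-- **multiplicity one**, nonarchimedean case, characteristic 2 -/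
theorem nonarch2 (h2 : ringChar F = 2) (hq : IsQuad F E) (δ : E) (hδ : δ + star δ = 1) (ψ : AddChar F Circle)
    (hψ : Continuous ψ) (hne : ψ ≠ 1) (hn : 3 ≤ n) (J : Matrix (Fin n) (Fin n) E) (hJ : Jᴴ = -J)
    (hdet : J.det ≠ 0) {S : Type v} [AddCommGroup S] [Module ℂ S]
    (ρ : (Fin n → E) → Module.End ℂ S) (hρ : IsHeis J δ (fun x => (ψ x : ℂ)) ρ)
    (ω : GL (Fin n) E → Module.End ℂ S) (hω : IsWeil J ρ ω) {P : Type w} [AddCommGroup P]
    [Module ℂ P] (π : GL (Fin n) E →* Module.End ℂ P) (hπ : IsIrrSmooth π) :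
    ∃ l₀ : P →ₗ[ℂ] S, ∀ l : P →ₗ[ℂ] S, (∀ h ∈ UV J, ∀ x, l (π h x) = ω h (l x)) →
      ∃ c : ℂ, ∀ x, l x = c • l₀ x := by
  have hQ : C2.QExt F E := ⟨hq.fixes, hq.degree, hq.nontrivial⟩
  have hE : IsUltrametricDist E := IsUltrametricDist.of_normedAlgebra F
  have hz : CharP F 2 := by
    have h3 := ringChar.charP F
    rwa [h2] at h3
  letI : C2.Dl E := ⟨δ, hδ⟩
  let B : C2.SkewH E (Fin n → E) := skb J hJ hdet
  let p : C2.PChar F := pch ψ hψ hne
  let H : C2.Heis B p S :=
    { ρ := ρ
      mul := fun v w => by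
        apply LinearMap.ext
        intro s
        exact hρ.add v w s
      one := LinearMap.ext hρ.zero
      smooth := hρ.smooth
      nontriv := hρ.nonzero
      irr := hρ.irreducible }
  let O : C2.OmRep H :=
    { ω :=
        { toFun := fun k => ω ((eG E n).symm k.1)
          map_one' := by
            apply LinearMap.ext
            intro s
            show ω ((eG E n).symm 1) s = s
            rw [map_one]
            exact hω.one s
          map_mul' := fun g h => by
            apply LinearMap.ext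
            intro s
            show ω ((eG E n).symm (g.1 * h.1)) s = ω ((eG E n).symm g.1) (ω ((eG E n).symm h.1) s)
            rw [map_mul]
            exact hω.mul _ (eG_mem J hJ hdet g) _ (eG_mem J hJ hdet h) s }
      comm := fun h v => by
        apply LinearMap.ext
        intro s
        have h1 := hω.intertwines _ (eG_mem J hJ hdet h) v s
        rw [eG_symm_apply] at h1
        exact h1
      smooth := fun s => by
        obtain ⟨U, hU, h1, h2⟩ := hω.smooth s
        refine ⟨(fun k : C2.UU B => (eG E n).symm k.1) ⁻¹' U, hU.preimage ?_, ?_,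
          fun h hh => h2 _ hh (eG_mem J hJ hdet h)⟩
        · exact eG_symm_cont.comp continuous_subtype_val
        · show (eG E n).symm 1 ∈ U
          rw [map_one]
          exact h1 }
  let π' : C2.GV E (Fin n → E) →* Module.End ℂ P := π.comp (eG E n).symm.toMonoidHom
  have e1 : ∀ g, π' (eG E n g) = π g := by
    intro g
    show π ((eG E n).symm (eG E n g)) = π g
    rw [MulEquiv.symm_apply_apply]
  have hπ' : C2.IrrSm π' := by
    refine ⟨fun x => ?_, hπ.nonzero, fun N hN => hπ.irreducible N fun g x hx => ?_⟩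
    · obtain ⟨U, hU, h1, h2⟩ := hπ.smooth x
      refine ⟨(eG E n).symm ⁻¹' U, hU.preimage eG_symm_cont, ?_, fun h hh => h2 _ hh⟩
      rw [Set.mem_preimage, map_one]
      exact h1
    · have h1 := hN (eG E n g) x hx
      rwa [e1] at h1
  have hr := C2.mult_one H O (by rw [Module.finrank_fin_fun]; exact hn) π' (C2.adm_GV π' hπ')
  rw [rank_le_one_iff] at hr
  obtain ⟨l₀, hl₀⟩ := hr
  refine ⟨l₀.1, fun l hl => ?_⟩
  have hl' : l ∈ C2.HomU π' O.ω := by
    intro h x
    exact hl _ (eG_mem J hJ hdet h) x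
  obtain ⟨c, hc⟩ := hl₀ ⟨l, hl'⟩
  refine ⟨c, fun x => ?_⟩
  exact (congrArg (fun φ : C2.HomU π' O.ω => φ.1 x) hc).symm

end Main

end

end Pool.Agent.Work.MP_dd0ddf_al.FD
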